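import Pool.Agent.L0h15.RJ.Fam2

/-!
# The Ramanujan conjecture in arbitrary finite families of spherical cusp forms on `PGL_2`

Let `φ i`, `i ∈ ι`, be `N` different spherical cusp forms on `PGL_2`, with Hecke eigenvalues
`x i p = α + α⁻¹` (real numbers) at the primes `p`; `φ i` is not tempered at `p` if and only if
`|x i p| > 2`. The only property which is used is Selberg orthogonality for the symmetric powers of
degree `≤ d`, twisted by Dirichlet characters. It is known for

* `d = 2` for all different forms (Gelbart and Jacquet, Ramakrishnan: the symmetric square determines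
  the form, as the level is one);
* `d = 4` for forms with different Laplace eigenvalues: the symmetric powers of degree `≤ 4` are
  cuspidal (Kim and Shahidi, Kim; there are no forms of solvable polyhedral type of level one) and
  pairwise different (compare the components at infinity), also after a twist by a Dirichlet
  character; now use the prime number theorem for Rankin-Selberg `L`-functions (Jacquet,
  Piatetski-Shapiro, Shalika, Shahidi) and the bound of Kim and Sarnak for the prime powers.

The families are arbitrary: they can be as thin as one likes in the spectrum, and there is no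
averaging over all forms of bounded eigenvalue, and no trace formula.

Theorem. Let `c` be a residue class prime to `q`; all densities are relative upper densities in the set
of the primes `p ≡ c` modulo `q`.

(A) For different forms (`d = 2`): all `N` forms are not tempered at a set of primes of density at most
`1 / (9 N + 1)`; for `K > N / 4`, at least `K` of the `N` forms are not tempered at a set of density at most
`N / (4 K - N) ^ 2`. So three quarters of the forms (up to `ε N`) are tempered at all primes outside a
set of density `O(1 / (ε ^ 2 N))`.

(B) For forms with different Laplace eigenvalues (`d = 4`):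

* each form is tempered at the primes `≡ c` modulo `q` outside a set of density at most `1 / 35` (for all
  primes together this is the theorem of Kim and Shahidi);
* two forms are simultaneously not tempered at a set of density at most `1 / 100`;
* all `N` forms are not tempered at a set of density at most `1 / (34 N + 1)`;
* for `K > N / 10`, at least `K` of the `N` forms are not tempered at a set of density at most
  `3.06 N / (10 K - N) ^ 2`. So nine tenths of the forms (up to `ε N`) are tempered at all primes outside
  a set of density `O(1 / (ε ^ 2 N))`;
* the first four moments of the eigenvalues `x i p`, `i ∈ ι`, are those of the Sato-Tate measure up to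
  `ε`, outside a set of primes of density `1 / (ε ^ 2 N)` for each moment.
-/

set_option autoImplicit false

namespace Pool.Agent.Results.MP_fa98d2_nt.ArbitraryFamilies

open Pool.Agent.L0h15.RJ

/-- the number of the forms which are not tempered at `p` -/
noncomputable def nontempered {ι : Type} (x : ι → ℕ → ℝ) (p : ℕ) : ℕ := Nat.card {i // 2 < |x i p|}

theorem result {ι : Type} [Fintype ι] [Nonempty ι] (x : ι → ℕ → ℝ) (q : ℕ) [NeZero q] (c : ZMod q)
    (hc : IsUnit c) :
    -- (A)
    (SelbergOrthogonality 2 x →
      DensityLE q c {p | ∀ i, 2 < |x i p|} (1 / (9 * Fintype.card ι + 1)) ∧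
      ∀ K : ℕ, Fintype.card ι < 4 * K → DensityLE q c {p | K ≤ nontempered x p}
        (Fintype.card ι / (4 * K - Fintype.card ι) ^ 2)) ∧
    -- (B)
    (SelbergOrthogonality 4 x →
      (∀ i, DensityLE q c {p | 2 < |x i p|} (1 / 35)) ∧
      (∀ i j, i ≠ j → DensityLE q c {p | 2 < |x i p| ∧ 2 < |x j p|} (1 / 100)) ∧
      DensityLE q c {p | ∀ i, 2 < |x i p|} (1 / (34 * Fintype.card ι + 1)) ∧
      (∀ K : ℕ, Fintype.card ι < 10 * K → DensityLE q c {p | K ≤ nontempered x p}
        (306 / 100 * Fintype.card ι / (10 * K - Fintype.card ι) ^ 2)) ∧
      ∀ a : ℕ, 1 ≤ a → a ≤ 4 → ∀ ε : ℝ, 0 < ε →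
        DensityLE q c {p | ε ≤ |(∑ i, sym a (x i p)) / Fintype.card ι|}
          (1 / (ε ^ 2 * Fintype.card ι))) := by
  refine ⟨fun h => ⟨all_nontempered_two le_rfl h hc, fun K hK => many_nontempered_two le_rfl h hc hK⟩,
    fun h => ⟨fun i => ?_, fun i j hij => both_nontempered h hij hc, all_nontempered h hc,
      fun K hK => many_nontempered h hc hK, fun a ha1 ha4 ε hε => empirical h hc ha1 ha4 hε⟩⟩
  -- the family with the only member `φ i`
  have h1 : SelbergOrthogonality 4 (fun _ : Unit => x i) := by
    intro q' _ χ a b j k ha hb
    have h2 := h q' χ a b i i ha hb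
    exact ⟨fun h3 => h2.1 ⟨h3.1, h3.2.1, Or.inr rfl⟩,
      fun h3 => h2.2 fun h4 => h3 ⟨h4.1, h4.2.1, Or.inr (Subsingleton.elim _ _)⟩⟩
  have h2 := all_nontempered h1 hc
  have h3 : {p | ∀ _i : Unit, 2 < |x i p|} = {p | 2 < |x i p|} := by
    ext p
    exact ⟨fun h => h (), fun h _ => h⟩
  rw [h3] at h2
  have h4 : (1 : ℝ) / (34 * (Fintype.card Unit : ℕ) + 1) = 1 / 35 := by
    norm_num
  rwa [h4] at h2

end Pool.Agent.Results.MP_fa98d2_nt.ArbitraryFamilies
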