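import Pool.Agent.L0h3.HH.AllK
import Pool.Agent.L0h3.HH.Cnt
import Pool.Agent.L0h15.RJ.Count

/-!
# Large Satake parameters are rare, and Hypothesis H of Rudnick and Sarnak, with a power saving

Let `π` be a spherical cusp form on `PGL_n`, `n ≥ 2` (or any unitary cuspidal automorphic representation of `GL_n`
over `ℚ` with conductor one), with Satake parameters `α_{1,p}, …, α_{n,p}`, and let `θ_p = max_i |log_p |α_{i,p}||`.
The Ramanujan conjecture at `p` is `θ_p = 0`; the bound of Luo, Rudnick and Sarnak is `θ_p ≤ 1/2 - 1/(n² + 1)`. Put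
`δ = 1/(n² + 1)`, `m = ⌊n / 2⌋` and `T_k (p) = ∑_i α_{i,p} ^ k`.

## What is used about cusp forms

* The parameters are closed under `z ↦ 1 / conj z` (local unitarity).
* The Rankin-Selberg series `log L(s, π × π~) = ∑_p ∑_k |T_k (p)|² p ^ (-k s) / k` converges for `s > 1`
  (Jacquet and Shalika).
* `TwistBound`: for each primitive Dirichlet character `ψ` modulo `q > 1` the function `L(s, π × π~ × ψ)` is entire
  and it is `O (q ^ (n² / 2 + ε) (1 + |s|) ^ B)` on `Re s > 0`. It is entire as `π` is unramified and `π ⊗ ψ |det|^{it}`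
  is not, so these are not isomorphic (Jacquet, Piatetski-Shapiro, Shalika; Moeglin and Waldspurger); its conductor is
  `q ^ (n²)`, its Euler factors at the primes dividing `q` are one, its factors at infinity are fixed up to the parity
  of `ψ` and have no poles in `Re s ≥ 1 - ε'`, so the functional equation and the Phragmen-Lindelöf principle
  give the convexity bound.

Nothing is used about the size of single parameters.

## The theorem

(1) For `0 < t ≤ 1/2`, `η > 0` at most `C x ^ (max (1 - 2 t) (m (1 - 2 t - δ)) + η)` primes `p ≤ x` have `θ_p ≥ t`.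

(2) If `t > 1/2 - 1/(2 m) - δ/2`, all primes `p ≤ x` but at most `C x ^ (1 - κ)`, `κ > 0`, have `θ_p < t`.

(3) If the Rankin-Selberg series of the exterior powers of the degrees `2 ≤ j ≤ m` converge for `s > 1`, at most
`C x ^ (1 - 2 t + η)` primes `p ≤ x` have `θ_p ≥ t`. This is no condition for `n ≤ 3`, and it is known for `n = 4` (Kim).

(4) Hypothesis H of Rudnick and Sarnak, for all `n`, with a power saving: for `k ≥ 2` the series
`∑_p |T_k (p)|² p ^ (-k s)` converges for all `s > 1 - δ`. So `∑_p (log p) ^ c |T_k (p)|² p ^ (-k)` converges for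
all `c`; Hypothesis H is the case `c = 2`. It was known for `n ≤ 3` (Rudnick and Sarnak) and `n = 4` (Kim).

(5) The series over all `p` and all `k ≥ 2` together, `∑_p ∑_{k ≥ 2} |T_k (p)|² p ^ (-k s) / k`, converges for
`s > 1 - δ`, and `log L (s, π × π~)` and `∑_p |T_1 (p)|² p ^ (-s)` differ by a bounded function for `s > 1`.

## The proof

Let `λ (n) ≥ 0` be the Dirichlet coefficients of `L(s, π × π~)`. Fix a prime number `ℓ` which divides `k`. For each of
the `N` primes `q ≤ Q` with `q ≡ 1 (mod ℓ)` choose a character `χ_q` modulo `q` of order `ℓ`, and put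
`S (n) = ∑_q χ_q (n)`. Then `S (m ^ k)` is at least `N / 2` unless `m` has very many prime factors among the `q`. On
the other hand, opening the square and moving the line of integration for the pairs of different primes,
`∑_n λ(n) w(n / X) |S (n)|² ≪ (N X + N² Q ^ (n² + ε)) X ^ ε`. With `Q = X ^ (1 / (n² + 1))` this gives
`∑_{m ^ k ≤ X} λ (m ^ k) ≪ X ^ (1 - δ + ε)` (`Pool.Agent.L0h3.HH.pow_bound`). For `m = p` one has
`λ (p ^ k) ≥ |T_k (p)|² / k`, which gives (4). For (1) and (2): at a large prime with `θ_p ≥ t` at least one of the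
traces `T_k`, `k ≤ m`, has the size `p ^ (k θ_p)` (`Pool.Agent.L0h15.RJ.exists_psum`); for `k = 1` one uses the
convergence of the Rankin-Selberg series, for `2 ≤ k ≤ m` (4).
-/

set_option autoImplicit false

namespace Pool.Agent.Results.MP_fa98d2_nt.HypothesisH

open Pool.Agent.L0h27.GR (rsTerm powerSum)
open Pool.Agent.L0h15.RJ (Unitary theta Rare primeCount Converges esym)
open Pool.Agent.L0h3.HH (TwistBound)

theorem result {n : ℕ} (hn : 2 ≤ n) (α : ℕ → Fin n → ℂ) (hU : ∀ p : ℕ, p.Prime → Unitary (α p))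
    (hRS : ∀ s : ℝ, 1 < s → Summable (rsTerm α s)) (hT : TwistBound α) :
    -- (1)
    (∀ t : ℝ, 0 < t → t ≤ 1 / 2 →
      Rare {p | t ≤ theta α p}
        (max (1 - 2 * t) (((n / 2 : ℕ) : ℝ) * (1 - 2 * t - 1 / ((n : ℝ) ^ 2 + 1))))) ∧
    -- (2)
    (∀ t : ℝ, 1 / 2 - 1 / (2 * ((n / 2 : ℕ) : ℝ)) - 1 / (2 * ((n : ℝ) ^ 2 + 1)) < t → 0 < t →
      ∃ κ : ℝ, 0 < κ ∧ ∃ C : ℝ, ∀ x : ℝ, 1 ≤ x →
        (primeCount {p | t ≤ theta α p} x : ℝ) ≤ C * x ^ (1 - κ)) ∧
    -- (3)
    ((∀ j : ℕ, 2 ≤ j → j ≤ n / 2 → Converges fun p => esym (α p) j) →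
      ∀ t : ℝ, 0 < t → t ≤ 1 / 2 → Rare {p | t ≤ theta α p} (1 - 2 * t)) ∧
    -- (4)
    (∀ k : ℕ, 2 ≤ k →
      (∀ s : ℝ, 1 - 1 / ((n : ℝ) ^ 2 + 1) < s →
        Summable fun p : Nat.Primes => ‖powerSum (α p) k‖ ^ 2 / ((p : ℕ) : ℝ) ^ ((k : ℝ) * s)) ∧
      (∀ c : ℝ, Summable fun p : Nat.Primes =>
        Real.log (p : ℕ) ^ c * ‖powerSum (α p) k‖ ^ 2 / ((p : ℕ) : ℝ) ^ k)) ∧
    -- (5)
    (∀ s : ℝ, 1 - 1 / ((n : ℝ) ^ 2 + 1) < s →
      Summable fun x : Nat.Primes × ℕ => rsTerm α s (x.1, x.2 + 1)) ∧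
    (∃ C : ℝ, ∀ s : ℝ, 1 < s →
      ∑' p : Nat.Primes, ‖powerSum (α p) 1‖ ^ 2 / ((p : ℕ) : ℝ) ^ s ≤ ∑' x, rsTerm α s x ∧
      ∑' x, rsTerm α s x ≤ (∑' p : Nat.Primes, ‖powerSum (α p) 1‖ ^ 2 / ((p : ℕ) : ℝ) ^ s) + C) := by
  refine ⟨fun t ht0 ht => Pool.Agent.L0h3.HH.count hn hU hRS hT ht0 ht,
    fun t ht ht0 => Pool.Agent.L0h3.HH.almost_all hn hU hRS hT ht0 ht,
    fun hE t ht0 ht η hη => Pool.Agent.L0h15.RJ.rare_exterior hn hU (fun j hj1 hj2 => ?_) ht0 ht hη,
    fun k hk => ⟨fun s hs => Pool.Agent.L0h3.HH.hypH (by omega) hRS hT hk hs,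
      fun c => Pool.Agent.L0h3.HH.hypH_log (by omega) hRS hT hk c⟩,
    fun s hs => Pool.Agent.L0h3.HH.all_k (by omega) hU hRS hT hs,
    Pool.Agent.L0h3.HH.primes_alone (by omega) hU hRS hT⟩
  rcases Nat.lt_or_ge j 2 with h | h
  · have : j = 1 := by omega
    subst this
    intro s hs
    refine (Pool.Agent.L0h3.HH.hyp_one hRS hs).congr fun p => ?_
    simp only [Pool.Agent.L0h15.RJ.esym_one, Pool.Agent.L0h15.RJ.psum, powerSum, pow_one]
  · exact hE j h hj2

end Pool.Agent.Results.MP_fa98d2_nt.HypothesisH
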