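import Pool.Agent.L0h52.LT.Cnt
import Pool.Agent.L0h52.LT.Gen

/-!
# Linnik type theorems for tempered primes of cusp forms on `PGL_n`

Let `π` be a spherical cusp form on `PGL_n` with Satake parameters `α_{i,p}`. The Ramanujan conjecture says that `π` is
tempered at every prime `p`: all `|α_{i,p}| = 1`. What is known about the set of tempered primes (density at least
`34/35` for `n = 2`, Kim and Shahidi; infinite for `n = 3`, Ramakrishnan) concerns one fixed form and `x → ∞`, and says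
nothing about the least tempered prime. Here such statements are proved uniformly in `π`, for primes up to a fixed power
of the conductor, as in Linnik's theorem on the least prime in an arithmetic progression.

(A) `n = 3`. The least tempered prime is at most `C M ^ (2 + ε)`. For `X ≥ M ^ A` at least `(log X) ^ (2 - ε)` primes
`p ≤ X` are tempered, and for each `σ < 1/2` the sum of `p ^ (-σ)` over them is at least `c log X`.

(B) `n = 2`. The least tempered prime is at most `C M ^ (1 + ε)`.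

(C) `n = 2`. Let `X ≥ M ^ A`. The sum of `log p / p` over the nontempered `p ≤ X` is at most
`(1 / (k + 1) ^ 2 + ε) log X`, where `k` is such that `L (s, Sym ^ k π × Sym ^ k π~)` is under control, so `k = 4` is
possible. For any finite family of forms there is one prime `p ≤ M ^ A` at which at most the proportion
`1 / (k + 1) ^ 2 + ε` of the family is not tempered; so any `24` forms are all tempered at a common prime `p ≤ M ^ A`.

(D) `n = 4`. The sum of `log p / p` over the `p ≤ X` at which none of the parameters has absolute value one is at most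
`(1 / 4 + ε) log X`, if the exterior square of `π` is cuspidal.

(E) `n ≥ 2`. For `0 < t ≤ 1/2` at most `C X ^ (⌊n / 2⌋ (1 - 2 t)) log X` primes `p ≤ X` have a parameter of absolute
value at least `p ^ t`. For `n ≤ 3` these are almost no primes for every `t > 0`.

Hypotheses. In (A), (B) the bound `M (1 + |s|) ^ B` is for the adjoint `L`-function `L (s, π × π~) / ζ (s)` on
`Re s > 0`. It is entire (`n = 2`: Shimura, Gelbart and Jacquet; `n = 3`: Ginzburg and Jiang, Hundley and Zhang), and by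
its functional equation and the Phragmén-Lindelöf principle the bound holds for some `B`, with
`M = C Q ^ (1 / 2 + ε)`, where `Q` is its analytic conductor at `s = 0`; so (A) gives tempered primes
`p ≤ C Q ^ (1 + ε)` and (B) `p ≤ C Q ^ (1 / 2 + ε)`. In (E) the bound is for `(s - 1) L (s, π × π~)` (Jacquet,
Piatetski-Shapiro, Shalika; Moeglin, Waldspurger), in (C) and (D) it is the same bound for `Sym ^ k π` and the exterior
square (cuspidal automorphic for `k ≤ 4` by Gelbart and Jacquet, Kim and Shahidi, Kim, as `π` is unramified; automorphic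
by Kim). Always `M` is a power of the conductor of `π`, and `B` depends only on `n` and `k`. The parameters at `p` are
invariant under `z ↦ 1 / conj z`, with multiplicities, because `π_p` is unitary.

Proof of (A), (B). At nontempered primes all coefficients of `log (L (s, π × π~) / ζ (s))` are nonnegative. If all primes
`p ≤ X` are nontempered, the adjoint `L`-function has nonnegative coefficients up to `X`, at least `1/2` at the squares of
primes (for `n = 2` at primes), and its Riesz means, which the contour shift to `Re s = σ` bounds by `C M X ^ σ`, are at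
least `X ^ (1 / 2 - δ)` (`X ^ (1 - δ)`). If some primes are tempered, they are removed from the Euler product, at the cost
of a factor `exp (K ∑ p ^ (-σ))`.

Proof of (C), (D), (E). Let `E (n)` be the coefficients of `L (s, γ × γ~)`, which are nonnegative, with logarithm
`∑ b (d) d ^ (-s)`. The Riesz means of `E` are asymptotic to `r X`, for `X ≥ M ^ A`, where the residue `r` is at least
`M ^ (-A)` (Newton's identities show that `E` has value at least `c` at some power of each prime with exponent at most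
`n`). The identity `E (n) log n = ∑_{d m = n} b (d) log d · E (m)` gives `∑_{d ≤ X} b (d) log d / d ≤ (1 + ε) log X`. For
`γ = Sym ^ k π` the term of a nontempered prime is at least `(k + 1) ^ 2 log p / p`, for the exterior square on `PGL_4`
at least `4 log p / p`, and if `|α_{i,p}| ≥ p ^ t` then one of the terms of `p ^ k`, `k ≤ n / 2`, is at least
`c p ^ (-k (1 - 2 t)) log p`.
-/

set_option autoImplicit false

open Set

namespace Pool.Agent.Results.MP_fa98d2_nt.LeastTemperedPrime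

open Pool.Agent.L0h27.GR Pool.Agent.L0h52.LT

open Classical in
theorem result :
    -- (A)
    (∀ (B : ℕ) (ε : ℝ), 0 < ε → ε < 1 → ∃ A C : ℝ, 1 ≤ A ∧ 1 ≤ C ∧ ∀ (M : ℝ) (α : ℕ → Fin 3 → ℂ), 2 ≤ M →
      (∀ p : ℕ, p.Prime → Unitary (α p)) → AdjointBound α 0 M B →
        (∃ p : ℕ, p.Prime ∧ Tempered (α p) ∧ (p : ℝ) ≤ C * M ^ (2 + ε)) ∧
        ∀ X : ℝ, M ^ A ≤ X → (Real.log X) ^ (2 - ε) ≤ (primesIn {p | Tempered (α p)} X).card) ∧
    (∀ (B : ℕ) (σ : ℝ), 0 < σ → σ < 1 / 2 → ∃ A c : ℝ, 1 ≤ A ∧ 0 < c ∧ ∀ (M : ℝ) (α : ℕ → Fin 3 → ℂ), 2 ≤ M →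
      (∀ p : ℕ, p.Prime → Unitary (α p)) → AdjointBound α 0 M B →
        ∀ X : ℝ, M ^ A ≤ X → c * Real.log X ≤ ∑ p ∈ primesIn {p | Tempered (α p)} X, (p : ℝ) ^ (-σ)) ∧
    -- (B)
    (∀ (B : ℕ) (ε : ℝ), 0 < ε → ∃ C : ℝ, 1 ≤ C ∧ ∀ (M : ℝ) (α : ℕ → Fin 2 → ℂ), 1 ≤ M →
      (∀ p : ℕ, p.Prime → Unitary (α p)) → AdjointBound α 0 M B →
        ∃ p : ℕ, p.Prime ∧ Tempered (α p) ∧ (p : ℝ) ≤ C * M ^ (1 + ε)) ∧
    -- (C)
    (∀ (k B : ℕ) (ε : ℝ), 0 < ε → ∃ A : ℝ, 1 ≤ A ∧ ∀ (M : ℝ) (N : ℕ) (α : Fin N → ℕ → Fin 2 → ℂ), 2 ≤ M → 1 ≤ N →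
      (∀ i, ∀ p : ℕ, p.Prime → Unitary (α i p)) → (∀ i, RSBound (fun p => symPow k (α i p)) M B) →
        (∀ i, ∀ X : ℝ, M ^ A ≤ X →
          logWeight {p | ¬ Tempered (α i p)} X ≤ (1 / (k + 1) ^ 2 + ε) * Real.log X) ∧
        ∃ p : ℕ, p.Prime ∧ (p : ℝ) ≤ M ^ A ∧
          ((Finset.univ.filter fun i => ¬ Tempered (α i p)).card : ℝ) ≤ (1 / (k + 1) ^ 2 + ε) * N) ∧
    -- (D)
    (∀ (B : ℕ) (ε : ℝ), 0 < ε → ∃ A : ℝ, 1 ≤ A ∧ ∀ (M : ℝ) (β : ℕ → Fin 4 → ℂ), 2 ≤ M →
      (∀ p : ℕ, p.Prime → Unitary (β p)) → RSBound (fun p => extSquare (β p)) M B → ∀ X : ℝ, M ^ A ≤ X →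
        logWeight {p | ∀ i, ‖β p i‖ ≠ 1} X ≤ (1 / 4 + ε) * Real.log X) ∧
    -- (E)
    (∀ (n B : ℕ) (t : ℝ), 2 ≤ n → 0 < t → t ≤ 1 / 2 → ∃ A C : ℝ, 1 ≤ A ∧ 0 < C ∧
      ∀ (M : ℝ) (α : ℕ → Fin n → ℂ), 2 ≤ M → (∀ p : ℕ, p.Prime → Unitary (α p)) → RSBound α M B →
        ∀ X : ℝ, M ^ A ≤ X → ((primesIn {p | ∃ i, (p : ℝ) ^ t ≤ ‖α p i‖} X).card : ℝ) ≤
          C * X ^ (((n / 2 : ℕ) : ℝ) * (1 - 2 * t)) * Real.log X) := by
  have hprimes : ∀ (n : ℕ) (α : ℕ → Fin n → ℂ) (X : ℝ), primesIn {p | Tempered (α p)} X = tempPrimes α X := by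
    intro n α X
    unfold primesIn tempPrimes
    ext p
    simp only [Finset.mem_filter]
    exact Iff.rfl
  refine ⟨fun B ε hε hε1 => ?_, fun B σ h0 h1 => ?_, fun B ε hε => ?_, fun k B ε hε => ?_,
    fun B ε hε => four_weight B hε, fun n B t hn ht ht2 => gen_count hn B ht ht2⟩
  · obtain ⟨A, hA, h1⟩ := three_count B hε hε1
    obtain ⟨C, hC, h2⟩ := three_least B (κ := 0) le_rfl hε
    refine ⟨A, C, hA, hC, fun M α hM hU hα => ⟨?_, fun X hX => ?_⟩⟩
    · obtain ⟨p, hp, hpM, hT⟩ := h2 M α (by linarith) hU hα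
      refine ⟨p, hp, hT, ?_⟩
      rwa [mul_zero, add_zero, div_one] at hpM
    · rw [hprimes]
      exact h1 M α hM hU hα X hX
  · obtain ⟨A, c, hA, hc, h⟩ := three_main B h0 h1
    refine ⟨A, c, hA, hc, fun M α hM hU hα X hX => ?_⟩
    rw [hprimes]
    exact h M α hM hU hα X hX
  · obtain ⟨C, hC, h⟩ := two_least B (κ := 0) le_rfl hε
    refine ⟨C, hC, fun M α hM hU hα => ?_⟩
    obtain ⟨p, hp, hpM, hT⟩ := h M α hM hU hα
    refine ⟨p, hp, hT, ?_⟩
    rwa [add_zero, div_one] at hpM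
  · obtain ⟨A₁, hA₁, h1⟩ := two_weight k B hε
    obtain ⟨A₂, hA₂, h2⟩ := two_family k B hε
    refine ⟨max A₁ A₂, hA₁.trans (le_max_left _ _), fun M N α hM hN hU hRS => ⟨fun i X hX => ?_, ?_⟩⟩
    · refine h1 M (α i) hM (hU i) (hRS i) X (le_trans ?_ hX)
      exact Real.rpow_le_rpow_of_exponent_le (by linarith) (le_max_left _ _)
    · obtain ⟨p, hp, hpM, hc⟩ := h2 M N α hM hN hU hRS
      refine ⟨p, hp, hpM.trans (Real.rpow_le_rpow_of_exponent_le (by linarith) (le_max_right _ _)),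
        le_trans (le_of_eq ?_) hc⟩
      congr 2

end Pool.Agent.Results.MP_fa98d2_nt.LeastTemperedPrime
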