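import Pool.Agent.L0h27.GR.Count

/-!
# Tempered primes of cusp forms on `PGL_3` and `PGL_4`

Let `π` be a spherical cusp form on `PGL_3` with Satake parameters `α_{1,p}, α_{2,p}, α_{3,p}`. The Ramanujan
conjecture says that `π_p` is tempered, that is `|α_{i,p}| = 1`, for every prime `p`. Ramakrishnan (2004) proved that
this is the case for infinitely many `p`. Here this is made quantitative.

(1) The sum of `p ^ (-1/2)` over the primes `p` at which `π` is tempered diverges.

(2) For arbitrarily large `x`, `π` is tempered at more than `2 √x / log x` primes `p ≤ x`.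

(3) Let `π` be a spherical cusp form on `PGL_4` and let `r` be the order of the pole at `s = 1` of the Rankin-Selberg
`L`-function of the exterior square of `π` (an automorphic representation of `GL_6` by Kim, so `r` is the number of
its cuspidal constituents, if they are different; `r = 1` if it is cuspidal). Then the set of the primes at which none
of the four parameters has absolute value one has upper Dirichlet density at most `r / 4`.

What is used of `π` in (1), (2): the parameters at `p` are invariant under `z ↦ 1 / conj z` (local unitarity), the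
Rankin-Selberg `L`-function `L (s, π × π~)` converges for `s > 1`, and `(s - 1) L (s, π × π~)` is entire (Jacquet,
Piatetski-Shapiro, Shalika; Moeglin, Waldspurger).

Proof of (1) and (2). At a nontempered prime the parameters are `u ρ, u / ρ, v` with `|u| = |v| = 1`, so all power
sums have absolute value at least `ρ ^ k + ρ ^ (-k) - 1 ≥ 1`, and the logarithm of `L (s, π × π~) / ζ (s)`, restricted
to the nontempered primes, is a Dirichlet series `A (s)` with nonnegative coefficients. If the tempered primes are
few, the remaining part `B (s)` of the logarithm converges for `s > 1/2`; as `ζ` has no zeros in `(0, 1)`, Landau's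
lemma shows that `A (s)` converges for `s > 1/2`, and `A + B` stays bounded from above as `s → 1/2`. But the terms of `p` and `p²`
of `A (s)` add up to at least `3 p ^ (-2 s)`: the first two power sums cannot both be close to one in absolute value.
So `∑ p ^ (-s)` over the tempered primes is at least `3 log (1 / (2 s - 1)) - C`.
-/

set_option autoImplicit false

open Set

namespace Pool.Agent.Results.MP_fa98d2_nt.TemperedPrimes

open Pool.Agent.L0h27.GR

theorem result :
    (∀ α : ℕ → Fin 3 → ℂ, (∀ p : ℕ, p.Prime → Unitary (α p)) → RankinSelberg α →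
      -- (1)
      (¬ Summable fun p : {p : ℕ // p.Prime ∧ Tempered (α p)} => ((p : ℕ) : ℝ) ^ (-(1 / 2) : ℝ)) ∧
      -- (2)
      (∀ X : ℕ, ∃ x : ℕ, X ≤ x ∧ 2 * Real.sqrt x / Real.log x < primeCount {p | Tempered (α p)} x)) ∧
    -- (3)
    (∀ β : ℕ → Fin 4 → ℂ, (∀ p : ℕ, p.Prime → Unitary (β p)) → ∀ r C : ℝ,
      (∀ s : ℝ, 1 < s → s < 2 →
        Summable (fun p : Nat.Primes => ‖wedge (β p)‖ ^ 2 * ((p : ℕ) : ℝ) ^ (-s)) ∧
        ∑' p : Nat.Primes, ‖wedge (β p)‖ ^ 2 * ((p : ℕ) : ℝ) ^ (-s) ≤ r * Real.log (1 / (s - 1)) + C) →
      UpperDensityLE {p | ∀ i, ‖β p i‖ ≠ 1} (r / 4)) := by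
  refine ⟨fun α hU hRS => ⟨fun hs => not_summable hU hRS ?_, fun X => many_tempered hU hRS X⟩,
    fun β hU r C h => four_params hU h⟩
  set i : {p : ℕ // p.Prime ∧ Tempered (α p)} → Nat.Primes := fun p => ⟨p.1, p.2.1⟩ with hi
  have hinj : Function.Injective i := by
    intro p q h
    exact Subtype.ext (congrArg (fun r : Nat.Primes => (r : ℕ)) h)
  refine (hinj.summable_iff ?_).1 (hs.congr fun p => ?_)
  · intro p hp
    apply pz_not
    intro hT
    exact hp ⟨⟨p.1, p.2, hT⟩, rfl⟩
  · show _ = pz (temp α) (1 / 2) (i p)
    rw [pz_mem (show (i p : ℕ) ∈ temp α from p.2.2)]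

end Pool.Agent.Results.MP_fa98d2_nt.TemperedPrimes
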